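import Mathlib
import Pool.Agent.N38.LD.Stm

/-! # The Euler characteristic of the truncated minimal resolution is one -/

set_option autoImplicit false
set_option linter.all false

open IsLocalRing

namespace Pool.Agent.N402.LD

open Pool.Agent.N38.LD (Acyc)

universe u

section basics

variable {R : Type} [CommRing R]

theorem mem_smul_top_pi (I : Ideal R) {b : ℕ} (x : Fin b → R) :
    x ∈ I • (⊤ : Submodule R (Fin b → R)) ↔ ∀ i, x i ∈ I := by
  constructor
  · intro h i
    refine Submodule.smul_induction_on (p := fun y => y i ∈ I) h ?_ ?_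
    · intro r hr n _
      exact I.mul_mem_right _ hr
    · intro x y hx hy
      exact I.add_mem hx hy
  · intro h
    have : x = ∑ i, x i • (Pi.single i (1 : R) : Fin b → R) := by
      conv_lhs => rw [pi_eq_sum_univ' x]
    rw [this]
    exact Submodule.sum_mem _ fun i _ => Submodule.smul_mem_smul (h i) trivial

/-- length of a power of `R / I` -/
theorem length_quot_pi (I : Ideal R) (b : ℕ) :
    Module.length R ((Fin b → R) ⧸ (I • (⊤ : Submodule R (Fin b → R)))) =
      (b : ℕ∞) * Module.length R (R ⧸ I) := by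
  let f : (Fin b → R) →ₗ[R] (Fin b → R ⧸ I) :=
    LinearMap.pi fun i => (Submodule.mkQ I).comp (LinearMap.proj i)
  have hf : Function.Surjective f := by
    intro y
    choose x hx using fun i => Submodule.mkQ_surjective I (y i)
    exact ⟨x, funext hx⟩
  have hk : LinearMap.ker f = I • (⊤ : Submodule R (Fin b → R)) := by
    ext x
    rw [mem_smul_top_pi, LinearMap.mem_ker, funext_iff]
    refine forall_congr' fun i => ?_
    show Submodule.mkQ I (x i) = 0 ↔ _
    rw [Submodule.mkQ_apply, Submodule.Quotient.mk_eq_zero]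
  rw [← hk, (f.quotKerEquivOfSurjective hf).length_eq, Module.length_pi]
  simp

/-- the length of `m^n / m^(n+1)` -/
noncomputable def ll (R : Type) [CommRing R] [IsLocalRing R] (n : ℕ) : ℕ∞ :=
  Module.length R (↥(maximalIdeal R ^ n) ⧸
        Submodule.comap (maximalIdeal R ^ n).subtype (maximalIdeal R ^ (n+1)))

theorem length_succ [IsLocalRing R] (n : ℕ) :
    Module.length R (R ⧸ maximalIdeal R ^ (n+1)) =
      ll R n + Module.length R (R ⧸ maximalIdeal R ^ n) := by
  have hle : maximalIdeal R ^ (n+1) ≤ maximalIdeal R ^ n := Ideal.pow_le_pow_right (Nat.le_succ n)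
  let f : (↥(maximalIdeal R ^ n) ⧸
        Submodule.comap (maximalIdeal R ^ n).subtype (maximalIdeal R ^ (n+1))) →ₗ[R]
        (R ⧸ maximalIdeal R ^ (n+1)) :=
    Submodule.mapQ _ _ (maximalIdeal R ^ n).subtype le_rfl
  let g : (R ⧸ maximalIdeal R ^ (n+1)) →ₗ[R] (R ⧸ maximalIdeal R ^ n) :=
    Submodule.mapQ _ _ LinearMap.id hle
  have hf : Function.Injective f := by
    rw [← LinearMap.ker_eq_bot, Submodule.ker_mapQ, Submodule.mkQ_map_self]
  have hg : Function.Surjective g := by
    intro y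
    obtain ⟨x, rfl⟩ := Submodule.Quotient.mk_surjective _ y
    exact ⟨Submodule.Quotient.mk x, rfl⟩
  refine Module.length_eq_add_of_exact f g hf hg ?_
  intro y
  obtain ⟨x, rfl⟩ := Submodule.Quotient.mk_surjective _ y
  constructor
  · intro h
    have h1 : (Submodule.Quotient.mk x : R ⧸ maximalIdeal R ^ n) = 0 := h
    rw [Submodule.Quotient.mk_eq_zero] at h1
    exact ⟨Submodule.Quotient.mk ⟨x, h1⟩, rfl⟩
  · rintro ⟨z, hz⟩
    obtain ⟨z, rfl⟩ := Submodule.Quotient.mk_surjective _ z
    rw [← hz]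
    show (Submodule.Quotient.mk (z : R) : R ⧸ maximalIdeal R ^ n) = 0
    rw [Submodule.Quotient.mk_eq_zero]
    exact z.2

theorem length_sum [IsLocalRing R] (s : ℕ) :
    Module.length R (R ⧸ maximalIdeal R ^ s) = ∑ n ∈ Finset.range s, ll R n := by
  induction s with
  | zero =>
    rw [Finset.range_zero, Finset.sum_empty, Module.length_eq_zero_iff]
    rw [pow_zero, Ideal.one_eq_top]
    exact Submodule.Quotient.subsingleton_iff.2 rfl
  | succ s ih => rw [length_succ, ih, Finset.sum_range_succ, add_comm]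

theorem length_ne_top [IsLocalRing R] [IsNoetherianRing R] (s : ℕ) :
    Module.length R (R ⧸ maximalIdeal R ^ s) ≠ ⊤ := by
  rcases Nat.eq_zero_or_pos s with rfl | hs
  · rw [length_sum]
    simp
  have hI : maximalIdeal R ^ s ≠ ⊤ := by
    intro h
    have h1 : maximalIdeal R = ⊤ := by
      rw [eq_top_iff, ← h]
      exact Ideal.pow_le_self hs.ne'
    exact (Ideal.IsPrime.ne_top inferInstance) h1
  have : Nontrivial (R ⧸ maximalIdeal R ^ s) := Ideal.Quotient.nontrivial_iff.mpr hI
  have := IsLocalRing.of_surjective' (Ideal.Quotient.mk (maximalIdeal R ^ s))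
    Ideal.Quotient.mk_surjective
  have := IsLocalHom.of_surjective (Ideal.Quotient.mk (maximalIdeal R ^ s))
    Ideal.Quotient.mk_surjective
  have hm : (maximalIdeal R).map (Ideal.Quotient.mk (maximalIdeal R ^ s)) =
      maximalIdeal (R ⧸ maximalIdeal R ^ s) := by
    ext x
    obtain ⟨x, rfl⟩ := Ideal.Quotient.mk_surjective x
    simp [sup_eq_left.mpr (le_maximalIdeal hI)]
  have hart : IsArtinianRing (R ⧸ maximalIdeal R ^ s) := by
    rw [isArtinianRing_iff_isNilpotent_maximalIdeal]
    refine ⟨s, ?_⟩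
    rw [← hm, ← Ideal.map_pow, Ideal.map_quotient_self]
    rfl
  rw [Module.length_eq_of_surjective (R := R ⧸ maximalIdeal R ^ s)
    (M := R ⧸ maximalIdeal R ^ s) (S := R) Ideal.Quotient.mk_surjective]
  exact Module.length_ne_top

end basics

section main

variable (R : Type) [CommRing R] [IsLocalRing R] [IsNoetherianRing R]
    (b : ℕ → ℕ) (d : ∀ n : ℕ, (Fin (b (n+1)) → R) →ₗ[R] (Fin (b n) → R))
    (ε : (Fin (b 0) → R) →ₗ[R] ResidueField R) (hε : Function.Surjective ε)
    (h0 : LinearMap.ker ε = LinearMap.range (d 0))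
    (hex : ∀ n : ℕ, LinearMap.ker (d n) = LinearMap.range (d (n+1)))
    (hmin : ∀ n : ℕ, LinearMap.range (d n) ≤ maximalIdeal R • (⊤ : Submodule R (Fin (b n) → R)))
    (w : ℕ) (hw : Acyc R b d w)

/-- the filtration -/
abbrev Fl (s i : ℕ) : Submodule R (Fin (b i) → R) :=
  (maximalIdeal R) ^ s • (⊤ : Submodule R (Fin (b i) → R))

variable {R b}

theorem Fl_anti {s t i : ℕ} (h : s ≤ t) : Fl R b t i ≤ Fl R b s i :=
  Submodule.smul_mono_left (Ideal.pow_le_pow_right h)

variable {d}

theorem eps_le {ε : (Fin (b 0) → R) →ₗ[R] ResidueField R} :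
    maximalIdeal R • (⊤ : Submodule R (Fin (b 0) → R)) ≤ LinearMap.ker ε := by
  rw [Submodule.smul_le]
  intro r hr x _
  rw [LinearMap.mem_ker, map_smul]
  have : algebraMap R (ResidueField R) r = 0 := (IsLocalRing.residue_eq_zero_iff r).2 hr
  rw [Algebra.smul_def, this, zero_mul]

include hmin in
theorem d_Fl (s i : ℕ) {y : Fin (b (i+1)) → R} (hy : y ∈ Fl R b s (i+1)) :
    d i y ∈ Fl R b (s+1) i := by
  have h1 : Submodule.map (d i) (Fl R b s (i+1)) ≤ Fl R b (s+1) i := by
    rw [Fl, Fl, Submodule.map_smul'', Submodule.map_top, pow_succ, Submodule.mul_smul]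
    exact smul_mono_right _ (hmin i)
  exact h1 (Submodule.mem_map_of_mem hy)

include h0 in
theorem lift0 {z : Fin (b 0) → R} (hz : z ∈ Fl R b (w+1) 0) :
    ∃ y ∈ Fl R b w 1, d 0 y = z := by
  have h1 : Fl R b (w+1) 0 ≤ Submodule.map (d 0) (Fl R b w 1) := by
    rw [Fl, Fl, Submodule.map_smul'', Submodule.map_top, pow_succ, Submodule.mul_smul]
    refine smul_mono_right _ ?_
    rw [← h0]
    exact eps_le
  exact h1 hz

include hex hw in
theorem liftS (k : ℕ) {z : Fin (b (k+1)) → R} (hz : z ∈ Fl R b (w+1-(k+1)) (k+1))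
    (hd : d k z = 0) : ∃ y ∈ Fl R b (w+1-(k+1)-1) (k+2), d (k+1) y = z := by
  by_cases hk : w < k + 1
  · have e1 : w + 1 - (k+1) = 0 := by omega
    have h1 : z ∈ LinearMap.range (d (k+1)) := by
      rw [← hex k]
      exact hd
    obtain ⟨y, hy⟩ := h1
    refine ⟨y, ?_, hy⟩
    rw [e1, Fl, pow_zero, Ideal.one_eq_top, Submodule.top_smul]
    trivial
  · obtain ⟨j, hj⟩ : ∃ j, w + 1 - (k+1) = j + 1 := ⟨w - (k+1), by omega⟩
    have hj' : w + 1 = j + 1 + (k + 1) := by omega
    rw [hj] at hz ⊢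
    rw [Nat.add_sub_cancel]
    set N : Submodule R (Fin (b (k+1)) → R) := Submodule.map (d (k+1)) (Fl R b j (k+2)) with hN
    have key : ∀ l : ℕ, z ∈ Fl R b (j+1+l) (k+1) ⊔ N := by
      intro l
      induction l with
      | zero => exact Submodule.mem_sup_left hz
      | succ l ih =>
        obtain ⟨z1, hz1, z2, hz2, e⟩ := Submodule.mem_sup.1 ih
        have hz2' := hz2
        rw [hN] at hz2'
        obtain ⟨y1, hy1, rfl⟩ := Submodule.mem_map.1 hz2'
        have hdd : d k (d (k+1) y1) = 0 := by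
          have : d (k+1) y1 ∈ LinearMap.ker (d k) := by
            rw [hex k]; exact LinearMap.mem_range_self _ _
          exact this
        have hz1d : d k z1 = 0 := by
          have := hd
          rw [← e, map_add, hdd, add_zero] at this
          exact this
        have h2 := hw k (j+1+l) (by omega) z1 hz1 (by rw [hz1d]; exact Submodule.zero_mem _)
        rw [← e]
        refine Submodule.add_mem _ ?_ (Submodule.mem_sup_right hz2)
        have h3 : (maximalIdeal R) ^ (j+1+l+1) • (⊤ : Submodule R (Fin (b (k+1)) → R)) ⊔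
          Submodule.map (d (k+1))
            ((maximalIdeal R) ^ (j+1+l-1) • (⊤ : Submodule R (Fin (b (k+1+1)) → R))) ≤
            Fl R b (j+1+(l+1)) (k+1) ⊔ N := by
          refine sup_le_sup ?_ ?_
          · exact le_of_eq rfl
          · rw [hN]
            refine Submodule.map_mono ?_
            exact Submodule.smul_mono_left (Ideal.pow_le_pow_right (by omega))
        exact h3 h2
    have hbot := Ideal.iInf_pow_smul_eq_bot_of_isLocalRing (R := R)
      (M := (Fin (b (k+1)) → R) ⧸ N) (maximalIdeal R) (Ideal.IsPrime.ne_top inferInstance)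
    have hmem : N.mkQ z ∈ (⨅ i : ℕ, maximalIdeal R ^ i •
        (⊤ : Submodule R ((Fin (b (k+1)) → R) ⧸ N))) := by
      rw [Submodule.mem_iInf]
      intro l
      obtain ⟨z1, hz1, z2, hz2, e⟩ := Submodule.mem_sup.1 (key l)
      have h4 : N.mkQ z = N.mkQ z1 := by
        rw [← e, map_add]
        have : N.mkQ z2 = 0 := by
          rw [Submodule.mkQ_apply, Submodule.Quotient.mk_eq_zero]; exact hz2
        rw [this, add_zero]
      rw [h4]
      have h5 : Submodule.map N.mkQ (Fl R b (j+1+l) (k+1)) ≤ maximalIdeal R ^ l •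
        (⊤ : Submodule R ((Fin (b (k+1)) → R) ⧸ N)) := by
        rw [Fl, Submodule.map_smul'']
        exact Submodule.smul_mono (Ideal.pow_le_pow_right (by omega)) le_top
      exact h5 (Submodule.mem_map_of_mem hz1)
    rw [hbot, Submodule.mem_bot, Submodule.mkQ_apply, Submodule.Quotient.mk_eq_zero, hN] at hmem
    exact hmem

include h0 hex hw in
theorem exact_aux (i : ℕ) (hi : i ≤ w) {c : Fin (b (i+1)) → R} (hc : d i c ∈ Fl R b (w+1-i) i) :
    c ∈ LinearMap.range (d (i+1)) ⊔ Fl R b (w+1-(i+1)) (i+1) := by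
  have h1 : ∃ y ∈ Fl R b (w+1-(i+1)) (i+1), d i y = d i c := by
    cases i with
    | zero =>
      have := lift0 ε h0 w hc
      simpa using this
    | succ k =>
      have := liftS hex w hw k hc (by
        have : d (k+1) c ∈ LinearMap.ker (d k) := by
          rw [hex k]; exact LinearMap.mem_range_self _ _
        exact this)
      have e : w + 1 - (k+1) - 1 = w + 1 - (k+1+1) := by omega
      rw [e] at this
      exact this
  obtain ⟨y, hy, e⟩ := h1
  have h2 : c - y ∈ LinearMap.range (d (i+1)) := by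
    rw [← hex i, LinearMap.mem_ker, map_sub, e, sub_self]
  have h3 : c = (c - y) + y := by abel
  rw [h3]
  exact Submodule.add_mem _ (Submodule.mem_sup_left h2) (Submodule.mem_sup_right hy)

variable (b d)

/-- the length of the cokernel of the truncated complex -/
noncomputable def qq (w i : ℕ) : ℕ∞ :=
  Module.length R ((Fin (b i) → R) ⧸ (LinearMap.range (d i) ⊔ Fl R b (w+1-i) i))

variable {b d}

include h0 hex hmin hw in
theorem length_eq (i : ℕ) (hi : i ≤ w) :
    Module.length R ((Fin (b i) → R) ⧸ Fl R b (w+1-i) i) = qq b d w (i+1) + qq b d w i := by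
  have hle : LinearMap.range (d (i+1)) ⊔ Fl R b (w+1-(i+1)) (i+1) ≤
      Submodule.comap (d i) (Fl R b (w+1-i) i) := by
    refine sup_le ?_ ?_
    · rw [← hex i]
      intro x hx
      rw [Submodule.mem_comap, LinearMap.mem_ker.1 hx]
      exact Submodule.zero_mem _
    · intro x hx
      rw [Submodule.mem_comap]
      have := d_Fl hmin _ i hx
      have e : w + 1 - (i+1) + 1 = w + 1 - i := by omega
      rwa [e] at this
  have hge : Submodule.comap (d i) (Fl R b (w+1-i) i) ≤
      LinearMap.range (d (i+1)) ⊔ Fl R b (w+1-(i+1)) (i+1) :=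
    fun c hc => exact_aux ε h0 hex w hw i hi hc
  let f : ((Fin (b (i+1)) → R) ⧸ (LinearMap.range (d (i+1)) ⊔ Fl R b (w+1-(i+1)) (i+1))) →ₗ[R]
      ((Fin (b i) → R) ⧸ Fl R b (w+1-i) i) := Submodule.mapQ _ _ (d i) hle
  let g : ((Fin (b i) → R) ⧸ Fl R b (w+1-i) i) →ₗ[R]
      ((Fin (b i) → R) ⧸ (LinearMap.range (d i) ⊔ Fl R b (w+1-i) i)) :=
    Submodule.mapQ _ _ LinearMap.id le_sup_right
  have hf : Function.Injective f := by
    rw [← LinearMap.ker_eq_bot, Submodule.ker_mapQ, eq_bot_iff]
    refine (Submodule.map_mono hge).trans ?_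
    rw [Submodule.mkQ_map_self]
  have hg : Function.Surjective g := by
    intro y
    obtain ⟨x, rfl⟩ := Submodule.Quotient.mk_surjective _ y
    exact ⟨Submodule.Quotient.mk x, rfl⟩
  refine Module.length_eq_add_of_exact f g hf hg ?_
  intro y
  obtain ⟨x, rfl⟩ := Submodule.Quotient.mk_surjective _ y
  constructor
  · intro h
    have h1 : (Submodule.Quotient.mk x : (Fin (b i) → R) ⧸
      (LinearMap.range (d i) ⊔ Fl R b (w+1-i) i)) = 0 := h
    rw [Submodule.Quotient.mk_eq_zero] at h1
    obtain ⟨z1, ⟨y1, rfl⟩, z2, hz2, e⟩ := Submodule.mem_sup.1 h1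
    refine ⟨Submodule.Quotient.mk y1, ?_⟩
    show (Submodule.Quotient.mk (d i y1) : (Fin (b i) → R) ⧸ Fl R b (w+1-i) i) = _
    rw [Submodule.Quotient.eq, ← e]
    have : d i y1 - (d i y1 + z2) = - z2 := by abel
    rw [this]
    exact Submodule.neg_mem _ hz2
  · rintro ⟨z, hz⟩
    obtain ⟨z, rfl⟩ := Submodule.Quotient.mk_surjective _ z
    rw [← hz]
    show (Submodule.Quotient.mk (d i z) : (Fin (b i) → R) ⧸
      (LinearMap.range (d i) ⊔ Fl R b (w+1-i) i)) = 0
    rw [Submodule.Quotient.mk_eq_zero]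
    exact Submodule.mem_sup_left (LinearMap.mem_range_self _ _)

include hε h0 in
theorem qq_zero : qq b d w 0 = 1 := by
  have h1 : LinearMap.range (d 0) ⊔ Fl R b (w+1-0) 0 = LinearMap.ker ε := by
    rw [← h0, sup_eq_left]
    refine le_trans ?_ (eps_le (ε := ε))
    have : Fl R b (w+1-0) 0 ≤ Fl R b 1 0 := Fl_anti (by omega)
    refine this.trans ?_
    rw [Fl, pow_one]
  rw [qq, h1, (ε.quotKerEquivOfSurjective hε).length_eq, Module.length_eq_one_iff,
    isSimpleModule_iff_quot_maximal]
  exact ⟨maximalIdeal R, inferInstance, ⟨LinearEquiv.refl _ _⟩⟩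

theorem qq_last : qq b d w (w+1) = 0 := by
  rw [qq, Module.length_eq_zero_iff]
  refine Submodule.Quotient.subsingleton_iff.2 ?_
  rw [Nat.sub_self, Fl, pow_zero, Ideal.one_eq_top, Submodule.top_smul, sup_top_eq]

end main

theorem euler (R : Type) [CommRing R] [IsLocalRing R] [IsNoetherianRing R]
    (b : ℕ → ℕ) (d : ∀ n : ℕ, (Fin (b (n+1)) → R) →ₗ[R] (Fin (b n) → R))
    (ε : (Fin (b 0) → R) →ₗ[R] ResidueField R) (hε : Function.Surjective ε)
    (h0 : LinearMap.ker ε = LinearMap.range (d 0))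
    (hex : ∀ n : ℕ, LinearMap.ker (d n) = LinearMap.range (d (n+1)))
    (hmin : ∀ n : ℕ, LinearMap.range (d n) ≤ maximalIdeal R • (⊤ : Submodule R (Fin (b n) → R)))
    (w : ℕ) (hw : Acyc R b d w) :
    ∑ i ∈ Finset.range (w+1), ∑ n ∈ Finset.range (w+1-i), (-1 : ℤ)^i * (b i : ℤ) *
      ((Module.length R (↥(maximalIdeal R ^ n) ⧸
        Submodule.comap (maximalIdeal R ^ n).subtype (maximalIdeal R ^ (n+1)))).toNat : ℤ) = 1 := by
  have hll : ∀ n, ll R n ≠ ⊤ := by
    intro n h
    have := length_ne_top (R := R) (n+1)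
    rw [length_succ, h, top_add] at this
    exact this rfl
  have hlen : ∀ i, i ≤ w → (b i : ℤ) * ∑ n ∈ Finset.range (w+1-i), ((ll R n).toNat : ℤ) =
      ((qq b d w (i+1)).toNat : ℤ) + ((qq b d w i).toNat : ℤ) := by
    intro i hi
    have h1 := length_eq ε h0 hex hmin w hw i hi
    have h2 := length_quot_pi (maximalIdeal R ^ (w+1-i)) (b i)
    have h3 : (b i : ℕ∞) * ∑ n ∈ Finset.range (w+1-i), ll R n =
        qq b d w (i+1) + qq b d w i := by
      rw [← h1, ← length_sum, ← h2]
    have hfin : (b i : ℕ∞) * ∑ n ∈ Finset.range (w+1-i), ll R n ≠ ⊤ := by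
      rw [← length_sum]
      obtain ⟨t, ht⟩ := ENat.ne_top_iff_exists.1 (length_ne_top (R := R) (w+1-i))
      rw [← ht, ← Nat.cast_mul]
      exact ENat.coe_ne_top _
    have hq1 : qq b d w (i+1) ≠ ⊤ := by
      intro h; rw [h3, h, top_add] at hfin; exact hfin rfl
    have hq2 : qq b d w i ≠ ⊤ := by
      intro h; rw [h3, h, add_top] at hfin; exact hfin rfl
    have h4 := congrArg ENat.toNat h3
    rw [ENat.toNat_add hq1 hq2, ENat.toNat_mul, ENat.toNat_coe] at h4
    have h5 : (∑ n ∈ Finset.range (w+1-i), ll R n).toNat =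
        ∑ n ∈ Finset.range (w+1-i), (ll R n).toNat := by
      have h6 : ∑ n ∈ Finset.range (w+1-i), ll R n =
          ((∑ n ∈ Finset.range (w+1-i), (ll R n).toNat : ℕ) : ℕ∞) := by
        rw [Nat.cast_sum]
        exact Finset.sum_congr rfl fun n _ => (ENat.coe_toNat (hll n)).symm
      rw [h6, ENat.toNat_coe]
    rw [h5] at h4
    have h7 := congrArg (fun x : ℕ => (x : ℤ)) h4
    push_cast at h7
    exact h7
  have hsum : ∀ k, k ≤ w + 1 → ∑ i ∈ Finset.range k, (-1 : ℤ)^i *
      (((qq b d w (i+1)).toNat : ℤ) + ((qq b d w i).toNat : ℤ)) =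
      ((qq b d w 0).toNat : ℤ) - (-1)^k * ((qq b d w k).toNat : ℤ) := by
    intro k hk
    induction k with
    | zero => simp
    | succ k ih =>
      rw [Finset.sum_range_succ, ih (by omega), pow_succ]
      ring
  have hfinal := hsum (w+1) le_rfl
  rw [qq_last, qq_zero ε hε h0 w] at hfinal
  have hgoal : ∑ i ∈ Finset.range (w+1), ∑ n ∈ Finset.range (w+1-i), (-1 : ℤ)^i * (b i : ℤ) *
      ((ll R n).toNat : ℤ) = ∑ i ∈ Finset.range (w+1), (-1 : ℤ)^i *
      (((qq b d w (i+1)).toNat : ℤ) + ((qq b d w i).toNat : ℤ)) := by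
    refine Finset.sum_congr rfl fun i hi => ?_
    rw [← hlen i (by have := Finset.mem_range.1 hi; omega), Finset.mul_sum, Finset.mul_sum]
    refine Finset.sum_congr rfl fun n _ => ?_
    ring
  have : ∑ i ∈ Finset.range (w+1), ∑ n ∈ Finset.range (w+1-i), (-1 : ℤ)^i * (b i : ℤ) *
      ((ll R n).toNat : ℤ) = 1 := by
    rw [hgoal, hfinal]
    simp
  exact this

end Pool.Agent.N402.LD
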